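import Mathlib

/-! A small index theory for operators invertible modulo the compact operators.

`Bd T n`: there are finite-dimensional `F`, `G` with `dim F - dim G = n` and an isomorphism of
`X × G` onto `Y × F` whose corner is `T`. -/

set_option autoImplicit false

open Filter Topology Module

namespace Pool.Agent.Helper509.SQ

variable {𝕜 : Type} [RCLike 𝕜]
variable {X Y Z W : Type} [NormedAddCommGroup X] [NormedSpace 𝕜 X]
  [NormedAddCommGroup Y] [NormedSpace 𝕜 Y]
  [NormedAddCommGroup Z] [NormedSpace 𝕜 Z]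
  [NormedAddCommGroup W] [NormedSpace 𝕜 W]

/-- Fredholm alternative: injective perturbations of the identity are invertible. -/
lemma isUnit_of_inj [CompleteSpace X] {Q : X →L[𝕜] X} (hK : IsCompactOperator (Q - 1 : X →L[𝕜] X))
    (hQ : ∀ x, Q x = 0 → x = 0) : IsUnit Q := by
  set k : X →L[𝕜] X := Q - 1 with hk
  rcases hK.hasEigenvalue_or_mem_resolventSet (neg_ne_zero.2 (one_ne_zero (α := 𝕜))) with h4 | h4
  · exfalso
    obtain ⟨x, hx⟩ := h4.exists_hasEigenvector
    have h5 : k x = (-1 : 𝕜) • x := hx.apply_eq_smul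
    have h6 : Q x = 0 := by
      have : k x = Q x - x := rfl
      rw [this, neg_one_smul, sub_eq_iff_eq_add] at h5
      rw [h5]; simp
    exact hx.2 (hQ x h6)
  · rw [spectrum.mem_resolventSet_iff] at h4
    have h5 : algebraMap 𝕜 (X →L[𝕜] X) (-1) - k = -Q := by
      rw [hk, map_neg, map_one]; abel
    rw [h5] at h4
    exact (IsUnit.neg_iff _).1 h4

lemma surj_of_inj [CompleteSpace X] {Q : X →L[𝕜] X} (hK : IsCompactOperator (Q - 1 : X →L[𝕜] X))
    (hQ : ∀ x, Q x = 0 → x = 0) : Function.Surjective Q := by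
  obtain ⟨u, hu⟩ := isUnit_of_inj hK hQ
  intro y
  refine ⟨((u⁻¹ : (X →L[𝕜] X)ˣ) : X →L[𝕜] X) y, ?_⟩
  rw [← hu]
  exact DFunLike.congr_fun (Units.mul_inv u) y

/-- `T` has index `n`: it is the corner of an isomorphism `X × G → Y × F` with
`dim F - dim G = n`. -/
def Bd (T : X →L[𝕜] Y) (n : ℤ) : Prop :=
  ∃ (F G : Type) (_ : NormedAddCommGroup F) (_ : NormedSpace 𝕜 F) (_ : FiniteDimensional 𝕜 F)
    (_ : NormedAddCommGroup G) (_ : NormedSpace 𝕜 G) (_ : FiniteDimensional 𝕜 G)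
    (M : (X × G) ≃L[𝕜] (Y × F)), (finrank 𝕜 F : ℤ) - finrank 𝕜 G = n ∧ ∀ x, (M (x, 0)).1 = T x

lemma bd_equiv (e : X ≃L[𝕜] Y) : Bd (e : X →L[𝕜] Y) 0 :=
  ⟨PUnit, PUnit, inferInstance, inferInstance, inferInstance, inferInstance, inferInstance,
    inferInstance, e.prodCongr (ContinuousLinearEquiv.refl 𝕜 PUnit), by simp, fun x => rfl⟩

/-- The shuffle `(A × B) × C ≃ (A × C) × B`. -/
noncomputable def shuf (A B C : Type) [NormedAddCommGroup A] [NormedSpace 𝕜 A]
    [NormedAddCommGroup B] [NormedSpace 𝕜 B] [NormedAddCommGroup C] [NormedSpace 𝕜 C] :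
    ((A × B) × C) ≃L[𝕜] ((A × C) × B) :=
  { toFun := fun p => ((p.1.1, p.2), p.1.2)
    invFun := fun p => ((p.1.1, p.2), p.1.2)
    left_inv := fun p => rfl
    right_inv := fun p => rfl
    map_add' := fun p q => rfl
    map_smul' := fun c p => rfl
    continuous_toFun := by fun_prop
    continuous_invFun := by fun_prop }

lemma Bd.comp {T : X →L[𝕜] Y} {S : Y →L[𝕜] Z} {m n : ℤ} (hT : Bd T m) (hS : Bd S n) :
    Bd (S.comp T) (m + n) := by
  obtain ⟨F, G, i1, i2, i3, i4, i5, i6, M, hm, hM⟩ := hT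
  obtain ⟨F', G', j1, j2, j3, j4, j5, j6, N, hn, hN⟩ := hS
  let P : (X × (G × G')) ≃L[𝕜] (Z × (F' × F)) :=
    (ContinuousLinearEquiv.prodAssoc 𝕜 X G G').symm.trans
      ((M.prodCongr (ContinuousLinearEquiv.refl 𝕜 G')).trans
        ((shuf Y F G').trans ((N.prodCongr (ContinuousLinearEquiv.refl 𝕜 F)).trans
          (ContinuousLinearEquiv.prodAssoc 𝕜 Z F' F))))
  refine ⟨F' × F, G × G', inferInstance, inferInstance, inferInstance, inferInstance,
    inferInstance, inferInstance, P, ?_, fun x => ?_⟩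
  · rw [finrank_prod, finrank_prod]
    push_cast
    linarith
  · show (N ((M (x, 0)).1, 0)).1 = S (T x)
    rw [hN, hM]

lemma Bd.prodMap {T : X →L[𝕜] Y} {S : Z →L[𝕜] W} {m n : ℤ} (hT : Bd T m) (hS : Bd S n) :
    Bd (T.prodMap S) (m + n) := by
  obtain ⟨F, G, i1, i2, i3, i4, i5, i6, M, hm, hM⟩ := hT
  obtain ⟨F', G', j1, j2, j3, j4, j5, j6, N, hn, hN⟩ := hS
  let P : ((X × Z) × (G × G')) ≃L[𝕜] ((Y × W) × (F × F')) :=
    { toFun := fun p => (((M (p.1.1, p.2.1)).1, (N (p.1.2, p.2.2)).1),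
        ((M (p.1.1, p.2.1)).2, (N (p.1.2, p.2.2)).2))
      invFun := fun p => (((M.symm (p.1.1, p.2.1)).1, (N.symm (p.1.2, p.2.2)).1),
        ((M.symm (p.1.1, p.2.1)).2, (N.symm (p.1.2, p.2.2)).2))
      left_inv := fun p => by simp
      right_inv := fun p => by simp
      map_add' := fun p q => by
        have h1 : ((p + q).1.1, (p + q).2.1) = (p.1.1, p.2.1) + (q.1.1, q.2.1) := rfl
        have h2 : ((p + q).1.2, (p + q).2.2) = (p.1.2, p.2.2) + (q.1.2, q.2.2) := rfl
        simp only [h1, h2, map_add]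
        rfl
      map_smul' := fun c p => by
        have h1 : ((c • p).1.1, (c • p).2.1) = c • (p.1.1, p.2.1) := rfl
        have h2 : ((c • p).1.2, (c • p).2.2) = c • (p.1.2, p.2.2) := rfl
        simp only [h1, h2, map_smul]
        rfl
      continuous_toFun := by fun_prop
      continuous_invFun := by fun_prop }
  refine ⟨F × F', G × G', inferInstance, inferInstance, inferInstance, inferInstance,
    inferInstance, inferInstance, P, ?_, fun x => ?_⟩
  · rw [finrank_prod, finrank_prod]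
    push_cast
    linarith
  · show ((M (x.1, 0)).1, (N (x.2, 0)).1) = (T x.1, S x.2)
    rw [hN, hM]

lemma compact_of_finrank {F : Type} [NormedAddCommGroup F] [NormedSpace 𝕜 F]
    [FiniteDimensional 𝕜 F] (f : X →L[𝕜] F) : IsCompactOperator f := by
  have : ProperSpace F := FiniteDimensional.proper 𝕜 F
  exact isCompactOperator_of_locallyCompactSpace_dom f

lemma compact_of_finrank' {F : Type} [NormedAddCommGroup F] [NormedSpace 𝕜 F]
    [FiniteDimensional 𝕜 F] (f : F →L[𝕜] X) : IsCompactOperator f := by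
  have : ProperSpace F := FiniteDimensional.proper 𝕜 F
  exact isCompactOperator_of_locallyCompactSpace_rng f

/-- the key inequality -/
lemma finrank_le [CompleteSpace Y] {F G : Type} [NormedAddCommGroup F] [NormedSpace 𝕜 F]
    [FiniteDimensional 𝕜 F] [NormedAddCommGroup G] [NormedSpace 𝕜 G] [FiniteDimensional 𝕜 G]
    (P : (Y × G) ≃L[𝕜] (Y × F)) (K : Y →L[𝕜] Y) (hK : IsCompactOperator K)
    (hP : ∀ y, (P (y, 0)).1 = y + K y) : finrank 𝕜 G ≤ finrank 𝕜 F := by
  by_contra hlt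
  push Not at hlt
  have : CompleteSpace G := FiniteDimensional.complete 𝕜 G
  obtain ⟨j0, hj0⟩ := finrank_le_iff_exists_linearMap.1 hlt.le
  let j : F →L[𝕜] G := LinearMap.toContinuousLinearMap j0
  have hj : Function.Injective j := hj0
  have hjs : ¬ Function.Surjective j := by
    intro hs
    have h1 := LinearMap.finrank_le_finrank_of_surjective (f := j0) hs
    omega
  let Q : (Y × G) →L[𝕜] (Y × G) :=
    ((ContinuousLinearMap.id 𝕜 Y).prodMap j).comp (P : (Y × G) →L[𝕜] (Y × F))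
  have hQ : ∀ p, Q p = ((P p).1, j (P p).2) := fun p => rfl
  have hQ1 : Q - 1 = (ContinuousLinearMap.inl 𝕜 Y G).comp (K.comp (ContinuousLinearMap.fst 𝕜 Y G)) +
      ((ContinuousLinearMap.inl 𝕜 Y G).comp (((ContinuousLinearMap.fst 𝕜 Y F).comp
        ((P : (Y × G) →L[𝕜] (Y × F)).comp (ContinuousLinearMap.inr 𝕜 Y G))).comp
          (ContinuousLinearMap.snd 𝕜 Y G)) +
      (ContinuousLinearMap.inr 𝕜 Y G).comp ((j.comp (ContinuousLinearMap.snd 𝕜 Y F)).comp
        (P : (Y × G) →L[𝕜] (Y × F)) - ContinuousLinearMap.snd 𝕜 Y G)) := by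
    refine ContinuousLinearMap.ext fun p => ?_
    obtain ⟨y, g⟩ := p
    have h1 : (P (y, g)) = P (y, 0) + P (0, g) := by
      rw [← map_add]; simp
    refine Prod.ext ?_ ?_
    · show (P (y, g)).1 - y = K y + ((P (0, g)).1 + 0)
      rw [h1, Prod.fst_add, hP]
      abel
    · show j (P (y, g)).2 - g = 0 + (0 + (j (P (y, g)).2 - g))
      abel
  have hc : IsCompactOperator (Q - 1 : (Y × G) →L[𝕜] (Y × G)) := by
    rw [hQ1]
    refine IsCompactOperator.add ?_ (IsCompactOperator.add ?_ ?_)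
    · exact (hK.comp_clm (ContinuousLinearMap.fst 𝕜 Y G)).clm_comp (ContinuousLinearMap.inl 𝕜 Y G)
    · exact ((compact_of_finrank' ((ContinuousLinearMap.fst 𝕜 Y F).comp
        ((P : (Y × G) →L[𝕜] (Y × F)).comp (ContinuousLinearMap.inr 𝕜 Y G)))).comp_clm
          (ContinuousLinearMap.snd 𝕜 Y G)).clm_comp (ContinuousLinearMap.inl 𝕜 Y G)
    · exact (compact_of_finrank ((j.comp (ContinuousLinearMap.snd 𝕜 Y F)).comp
        (P : (Y × G) →L[𝕜] (Y × F)) - ContinuousLinearMap.snd 𝕜 Y G)).clm_comp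
          (ContinuousLinearMap.inr 𝕜 Y G)
  have hs := surj_of_inj hc (by
    intro p hp
    rw [hQ] at hp
    have h1 : (P p).1 = 0 := congrArg Prod.fst hp
    have h2 : j (P p).2 = 0 := congrArg Prod.snd hp
    have h3 : (P p).2 = 0 := hj (by rw [h2, map_zero])
    have h4 : P p = 0 := Prod.ext h1 h3
    simpa using congrArg P.symm h4)
  apply hjs
  intro g
  obtain ⟨p, hp⟩ := hs (0, g)
  exact ⟨(P p).2, congrArg Prod.snd hp⟩

lemma Bd.le [CompleteSpace Y] {T T' : X →L[𝕜] Y} {m n : ℤ} (hT : Bd T m) (hT' : Bd T' n)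
    (hK : IsCompactOperator (T' - T : X →L[𝕜] Y)) : m ≤ n := by
  obtain ⟨F, G, i1, i2, i3, i4, i5, i6, M, hm, hM⟩ := hT
  obtain ⟨F', G', j1, j2, j3, j4, j5, j6, M', hn, hM'⟩ := hT'
  let P : (Y × (F × G')) ≃L[𝕜] (Y × (F' × G)) :=
    (ContinuousLinearEquiv.prodAssoc 𝕜 Y F G').symm.trans
      ((M.symm.prodCongr (ContinuousLinearEquiv.refl 𝕜 G')).trans
        ((shuf X G G').trans ((M'.prodCongr (ContinuousLinearEquiv.refl 𝕜 G)).trans
          (ContinuousLinearEquiv.prodAssoc 𝕜 Y F' G))))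
  -- the corner of `P`
  let a : Y →L[𝕜] X := (ContinuousLinearMap.fst 𝕜 X G).comp
    ((M.symm : (Y × F) →L[𝕜] (X × G)).comp (ContinuousLinearMap.inl 𝕜 Y F))
  let b : Y →L[𝕜] G := (ContinuousLinearMap.snd 𝕜 X G).comp
    ((M.symm : (Y × F) →L[𝕜] (X × G)).comp (ContinuousLinearMap.inl 𝕜 Y F))
  let c : G →L[𝕜] Y := (ContinuousLinearMap.fst 𝕜 Y F).comp
    ((M : (X × G) →L[𝕜] (Y × F)).comp (ContinuousLinearMap.inr 𝕜 X G))
  let K : Y →L[𝕜] Y := (T' - T).comp a - c.comp b
  have hKc : IsCompactOperator K := by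
    have h1 : IsCompactOperator (c.comp b) := (compact_of_finrank' c).comp_clm b
    exact (hK.comp_clm a).sub h1
  have hcor : ∀ y, T (a y) + c (b y) = y := by
    intro y
    have h1 : M (a y, b y) = (y, 0) := M.apply_symm_apply (y, 0)
    have h2 : M (a y, b y) = M (a y, 0) + M (0, b y) := by rw [← map_add]; simp
    rw [h2] at h1
    have h3 := congrArg Prod.fst h1
    rw [Prod.fst_add, hM] at h3
    exact h3
  have hP : ∀ y, (P (y, 0)).1 = y + K y := by
    intro y
    show (M' (a y, 0)).1 = y + ((T' (a y) - T (a y)) - c (b y))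
    rw [hM']
    have h2 : T (a y) = y - c (b y) := eq_sub_of_add_eq (hcor y)
    rw [h2]
    abel
  have h1 := finrank_le P K hKc hP
  rw [finrank_prod, finrank_prod] at h1
  have h2 : (finrank 𝕜 F : ℤ) + finrank 𝕜 G' ≤ finrank 𝕜 F' + finrank 𝕜 G := by exact_mod_cast h1
  linarith

/-- The index does not change under compact perturbations. -/
lemma Bd.unique [CompleteSpace Y] {T T' : X →L[𝕜] Y} {m n : ℤ} (hT : Bd T m) (hT' : Bd T' n)
    (hK : IsCompactOperator (T' - T : X →L[𝕜] Y)) : m = n := by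
  refine le_antisymm (hT.le hT' hK) (hT'.le hT ?_)
  have h1 : (T - T' : X →L[𝕜] Y) = -(T' - T) := by abel
  rw [h1]
  exact hK.neg

/-- Operators with a finite-dimensional kernel and a finite-codimensional range. -/
lemma exists_bd [CompleteSpace X] [CompleteSpace Y] (T : X →L[𝕜] Y)
    (h1 : FiniteDimensional 𝕜 (LinearMap.ker (T : X →ₗ[𝕜] Y)))
    (h2 : FiniteDimensional 𝕜 (Y ⧸ LinearMap.range (T : X →ₗ[𝕜] Y))) :
    ∃ n, Bd T n := by
  set N := LinearMap.ker (T : X →ₗ[𝕜] Y) with hN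
  set R := LinearMap.range (T : X →ₗ[𝕜] Y) with hR
  obtain ⟨C, hC⟩ := Submodule.exists_isCompl R
  have hCf : FiniteDimensional 𝕜 C :=
    (Submodule.quotientEquivOfIsCompl R C hC).finiteDimensional
  obtain ⟨P, hP⟩ := Submodule.ClosedComplemented.of_finiteDimensional N
  have := FiniteDimensional.complete 𝕜 C
  have := FiniteDimensional.complete 𝕜 N
  let f : (X × C) →L[𝕜] (Y × N) :=
    (T.comp (ContinuousLinearMap.fst 𝕜 X C) + C.subtypeL.comp (ContinuousLinearMap.snd 𝕜 X C)).prod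
      (P.comp (ContinuousLinearMap.fst 𝕜 X C))
  have hf : ∀ x c, f (x, c) = (T x + c, P x) := fun x c => rfl
  have hinj : LinearMap.ker (f : (X × C) →ₗ[𝕜] (Y × N)) = ⊥ := by
    rw [LinearMap.ker_eq_bot']
    rintro ⟨x, c⟩ h
    have h' : (T x + (c : Y), P x) = 0 := h
    have h3 : T x + (c : Y) = 0 := congrArg Prod.fst h'
    have h4 : P x = 0 := congrArg Prod.snd h'
    have h5 : (c : Y) = 0 := by
      have h6 : (c : Y) ∈ R := by
        rw [eq_neg_of_add_eq_zero_right h3]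
        exact R.neg_mem ⟨x, rfl⟩
      exact (Submodule.disjoint_def.1 hC.disjoint) _ h6 c.2
    have h6 : x ∈ N := by
      rw [h5, add_zero] at h3
      exact h3
    have h7 : x = 0 := by
      have h8 := hP ⟨x, h6⟩
      have h9 : P x = ⟨x, h6⟩ := h8
      rw [h4] at h9
      exact (congrArg Subtype.val h9).symm
    rw [h7]
    exact Prod.ext rfl (Subtype.ext h5)
  have hsurj : LinearMap.range (f : (X × C) →ₗ[𝕜] (Y × N)) = ⊤ := by
    rw [LinearMap.range_eq_top]
    rintro ⟨y, n⟩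
    obtain ⟨r, hr, c, hc, hrc⟩ := Submodule.mem_sup.1 (hC.sup_eq_top ▸ Submodule.mem_top (x := y))
    obtain ⟨x, hx⟩ := hr
    refine ⟨(x + (n - P x : N), ⟨c, hc⟩), ?_⟩
    show (T (x + (n - P x : N)) + c, P (x + (n - P x : N))) = (y, n)
    have h3 : T ((n - P x : N) : X) = 0 := (n - P x : N).2
    have h4 : P ((n - P x : N) : X) = n - P x := hP _
    have h5 : T x = r := hx
    rw [map_add, h3, add_zero, map_add, h4, h5, hrc]
    simp
  refine ⟨_, N, C, inferInstance, inferInstance, h1, inferInstance, inferInstance, hCf,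
    ContinuousLinearEquiv.ofBijective f hinj hsurj, rfl, fun x => ?_⟩
  show (f (x, 0)).1 = T x
  rw [hf]
  simp

lemma ker_fin [CompleteSpace X] {Q : X →L[𝕜] X} (hK : IsCompactOperator (Q - 1 : X →L[𝕜] X)) :
    FiniteDimensional 𝕜 (LinearMap.ker (Q : X →ₗ[𝕜] X)) := by
  set N := LinearMap.ker (Q : X →ₗ[𝕜] X) with hN
  have hNc : IsClosed (N : Set X) := ContinuousLinearMap.isClosed_ker Q
  have h1 : IsCompactOperator ((-(Q - 1) : X →L[𝕜] X).comp N.subtypeL) := by
    have h2 : IsCompactOperator (-(Q - 1) : X →L[𝕜] X) := hK.neg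
    exact h2.comp_clm _
  have h2 : ∀ x : N, ((-(Q - 1) : X →L[𝕜] X).comp N.subtypeL) x = (x : X) := by
    intro x
    show -(Q (x : X) - (x : X)) = x
    have h3 : Q (x : X) = 0 := x.2
    rw [h3]; simp
  have h3 := h1.codRestrict (V := N) (fun x => by rw [h2]; exact x.2) hNc
  have h5 : Set.codRestrict (((-(Q - 1) : X →L[𝕜] X).comp N.subtypeL : N →L[𝕜] X) : N → X) N
      (fun x => by rw [h2]; exact x.2) = id := by
    funext x
    exact Subtype.ext (h2 x)
  have h4 : IsCompactOperator (id : N → N) := by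
    rw [← h5]
    exact h3
  exact FiniteDimensional.of_isCompactOperator_id h4

lemma quot_fin [CompleteSpace X] {Q : X →L[𝕜] X} (hK : IsCompactOperator (Q - 1 : X →L[𝕜] X)) :
    FiniteDimensional 𝕜 (X ⧸ LinearMap.range (Q : X →ₗ[𝕜] X)) := by
  have hN := ker_fin hK
  set N := LinearMap.ker (Q : X →ₗ[𝕜] X)
  set R := LinearMap.range (Q : X →ₗ[𝕜] X)
  by_contra hinf
  have h1 : Module.rank 𝕜 N < Module.rank 𝕜 (X ⧸ R) := by
    have h2 : Cardinal.aleph0 ≤ Module.rank 𝕜 (X ⧸ R) := by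
      by_contra h
      push Not at h
      exact hinf (Module.rank_lt_aleph0_iff.1 h)
    exact lt_of_lt_of_le (Module.rank_lt_aleph0 𝕜 N) h2
  obtain ⟨l, hl⟩ := Module.Free.exists_linearMap_injective_of_rank_lt h1
  obtain ⟨s, hs⟩ := (R.mkQ).exists_rightInverse_of_surjective R.range_mkQ
  let L : N →L[𝕜] X := LinearMap.toContinuousLinearMap (s ∘ₗ l)
  have hL : ∀ x, R.mkQ (L x) = l x := fun x => LinearMap.congr_fun hs (l x)
  obtain ⟨P, hP⟩ := Submodule.ClosedComplemented.of_finiteDimensional N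
  have hc : IsCompactOperator (Q + L.comp P - 1 : X →L[𝕜] X) := by
    have h3 : (Q + L.comp P - 1 : X →L[𝕜] X) = (Q - 1) + L.comp P := by abel
    rw [h3]
    exact hK.add ((compact_of_finrank' L).comp_clm P)
  have hsurj := surj_of_inj hc (by
    intro x hx
    have hx' : Q x + L (P x) = 0 := hx
    have h3 : l (P x) = 0 := by
      rw [← hL, eq_neg_of_add_eq_zero_right hx', map_neg, neg_eq_zero]
      exact (Submodule.Quotient.mk_eq_zero R).2 ⟨x, rfl⟩
    have h4 : P x = 0 := hl (by rw [h3, map_zero])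
    rw [h4, map_zero, add_zero] at hx'
    have h5 := hP ⟨x, hx'⟩
    have h6 : P x = ⟨x, hx'⟩ := h5
    rw [h4] at h6
    exact (congrArg Subtype.val h6).symm)
  apply hinf
  refine Module.Finite.of_surjective (R.mkQ ∘ₗ (L : N →ₗ[𝕜] X)) ?_
  intro z
  obtain ⟨y, rfl⟩ := R.mkQ_surjective z
  obtain ⟨x, hx⟩ := hsurj y
  refine ⟨P x, ?_⟩
  have hx' : Q x + L (P x) = y := hx
  show R.mkQ (L (P x)) = R.mkQ y
  rw [← hx', map_add]
  have : R.mkQ (Q x) = 0 := (Submodule.Quotient.mk_eq_zero R).2 ⟨x, rfl⟩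
  rw [this, zero_add]

/-- Operators invertible modulo the compact operators have an index. -/
lemma exists_bd_of_inv [CompleteSpace X] [CompleteSpace Y] (T : X →L[𝕜] Y) (S : Y →L[𝕜] X)
    (h1 : IsCompactOperator (S.comp T - 1 : X →L[𝕜] X))
    (h2 : IsCompactOperator (T.comp S - 1 : Y →L[𝕜] Y)) : ∃ n, Bd T n := by
  refine exists_bd T ?_ ?_
  · have := ker_fin h1
    refine Submodule.finiteDimensional_of_le
      (S₂ := LinearMap.ker ((S.comp T : X →L[𝕜] X) : X →ₗ[𝕜] X)) ?_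
    intro x hx
    have hx' : T x = 0 := hx
    show S (T x) = 0
    rw [hx', map_zero]
  · have := quot_fin h2
    have hle : LinearMap.range ((T.comp S : Y →L[𝕜] Y) : Y →ₗ[𝕜] Y) ≤
        LinearMap.range (T : X →ₗ[𝕜] Y) := by
      rintro _ ⟨y, rfl⟩
      exact ⟨S y, rfl⟩
    exact Module.Finite.of_surjective (Submodule.factor hle) (Submodule.factor_surjective hle)

/-- Spaces in standard form. -/
lemma Bd.iso {T : X →L[𝕜] Y} {n : ℤ} (hT : Bd T n) : ∃ a b : ℕ, (a : ℤ) - b = n ∧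
    Nonempty ((X × (Fin b → 𝕜)) ≃L[𝕜] (Y × (Fin a → 𝕜))) := by
  obtain ⟨F, G, i1, i2, i3, i4, i5, i6, M, hm, -⟩ := hT
  let eF : F ≃L[𝕜] (Fin (finrank 𝕜 F) → 𝕜) := ContinuousLinearEquiv.ofFinrankEq (by simp)
  let eG : G ≃L[𝕜] (Fin (finrank 𝕜 G) → 𝕜) := ContinuousLinearEquiv.ofFinrankEq (by simp)
  refine ⟨finrank 𝕜 F, finrank 𝕜 G, hm, ⟨?_⟩⟩
  exact ((ContinuousLinearEquiv.refl 𝕜 X).prodCongr eG.symm).trans
    (M.trans ((ContinuousLinearEquiv.refl 𝕜 Y).prodCongr eF))

/-- The corner of an isomorphism. -/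
lemma bd_of_iso {a b : ℕ} (M : (X × (Fin b → 𝕜)) ≃L[𝕜] (Y × (Fin a → 𝕜))) :
    Bd ((ContinuousLinearMap.fst 𝕜 Y (Fin a → 𝕜)).comp
      ((M : (X × (Fin b → 𝕜)) →L[𝕜] (Y × (Fin a → 𝕜))).comp
        (ContinuousLinearMap.inl 𝕜 X (Fin b → 𝕜)))) ((a : ℤ) - b) :=
  ⟨Fin a → 𝕜, Fin b → 𝕜, inferInstance, inferInstance, inferInstance, inferInstance,
    inferInstance, inferInstance, M, by simp, fun _ => rfl⟩

/-- Cancellation of a one-dimensional summand. -/
lemma cancel_one (M : (X × 𝕜) ≃L[𝕜] (Y × 𝕜)) : Nonempty (X ≃L[𝕜] Y) := by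
  obtain ⟨v, hv1, hv2⟩ : ∃ v : X × 𝕜, v.2 ≠ 0 ∧ (M v).2 ≠ 0 := by
    by_cases h1 : (M (0, 1)).2 = 0
    · by_cases h2 : (M.symm (0, 1)).2 = 0
      · refine ⟨(0, 1) + M.symm (0, 1), ?_, ?_⟩
        · rw [Prod.snd_add, h2, add_zero]; exact one_ne_zero
        · rw [map_add, Prod.snd_add, h1, zero_add, M.apply_symm_apply]; exact one_ne_zero
      · exact ⟨M.symm (0, 1), h2, by rw [M.apply_symm_apply]; exact one_ne_zero⟩
    · exact ⟨(0, 1), one_ne_zero, h1⟩
  have hA : ∀ x : X, M ((x, 0) - ((M (x, 0)).2 / (M v).2) • v) =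
      ((M ((x, 0) - ((M (x, 0)).2 / (M v).2) • v)).1, 0) := by
    intro x
    refine Prod.ext rfl ?_
    rw [map_sub, map_smul, Prod.snd_sub, Prod.smul_snd, smul_eq_mul, div_mul_cancel₀ _ hv2,
      sub_self]
  have hB : ∀ y : Y, (M.symm (y, 0)) - ((M.symm (y, 0)).2 / v.2) • v =
      (((M.symm (y, 0)) - ((M.symm (y, 0)).2 / v.2) • v).1, 0) := by
    intro y
    refine Prod.ext rfl ?_
    rw [Prod.snd_sub, Prod.smul_snd, smul_eq_mul, div_mul_cancel₀ _ hv1, sub_self]
  refine ⟨{ toFun := fun x => (M ((x, 0) - ((M (x, 0)).2 / (M v).2) • v)).1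
            invFun := fun y => ((M.symm (y, 0)) - ((M.symm (y, 0)).2 / v.2) • v).1
            left_inv := ?_
            right_inv := ?_
            map_add' := ?_
            map_smul' := ?_
            continuous_toFun := ?_
            continuous_invFun := ?_ }⟩
  · intro x x'
    have h1 : ((x + x', 0) : X × 𝕜) = (x, 0) + (x', 0) := by simp
    simp only [h1, map_add, map_sub, map_smul, Prod.snd_add, add_div, add_smul, Prod.fst_sub,
      Prod.fst_add]
    abel
  · intro c x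
    have h1 : ((c • x, 0) : X × 𝕜) = c • (x, 0) := by simp
    simp only [h1, map_sub, map_smul, Prod.smul_snd, smul_eq_mul, Prod.fst_sub, Prod.smul_fst,
      RingHom.id_apply, smul_sub, smul_smul, mul_div_assoc]
  · intro x
    simp only
    rw [← hA x, M.symm_apply_apply]
    simp only [Prod.fst_sub, Prod.snd_sub, Prod.smul_fst, Prod.smul_snd, smul_eq_mul, zero_sub]
    rw [neg_div, mul_div_assoc, div_self hv1, mul_one, neg_smul, sub_neg_eq_add, sub_add_cancel]
  · intro y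
    simp only
    rw [← hB y]
    simp only [map_sub, map_smul, M.apply_symm_apply, Prod.fst_sub, Prod.snd_sub, Prod.smul_fst,
      Prod.smul_snd, smul_eq_mul, zero_sub]
    rw [neg_div, mul_div_assoc, div_self hv2, mul_one, neg_smul, sub_neg_eq_add, sub_add_cancel]
  · fun_prop
  · fun_prop

end Pool.Agent.Helper509.SQ
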